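import Pool.Agent.helper44.KR.SpecJ

/-!
# Project kr, module EX1: permutation matrices are connected to the identity
-/

noncomputable section

namespace Pool.Agent.helper44.KR

open Filter Topology Complex

theorem EX1_permM_one {n : Type} [DecidableEq n] : permM (1 : Equiv.Perm n) = 1 := by
  ext x y
  simp only [permM, Matrix.of_apply, Equiv.Perm.coe_one, id, Matrix.one_apply]
  split_ifs <;> rfl

theorem EX1_permM_mul {n : Type} [Fintype n] [DecidableEq n] (s t : Equiv.Perm n) :
    permM (s * t) = permM s * permM t := by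
  ext x y
  simp only [permM, Matrix.of_apply, Matrix.mul_apply, Equiv.Perm.coe_mul, Function.comp]
  rw [Finset.sum_eq_single (t y)]
  · simp
  · intro b _ hb
    rw [if_neg hb, mul_zero]
  · intro h
    exact absurd (Finset.mem_univ _) h

theorem EX1_path {n : Type} [Fintype n] [DecidableEq n] (S : Matrix n n ℂ)
    (h1 : S.conjTranspose = S) (h2 : S * S = 1) :
    ∃ V : unitInterval → Matrix n n ℂ, Continuous V ∧ V 0 = 1 ∧ V 1 = S ∧
      ∀ s, V s * (V s).conjTranspose = 1 ∧ (V s).conjTranspose * V s = 1 := by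
  set P : Matrix n n ℂ := (1 / 2 : ℂ) • (1 + S) with hP
  set Q : Matrix n n ℂ := (1 / 2 : ℂ) • (1 - S) with hQ
  have hPP : P * P = P := by
    rw [hP, smul_mul_smul_comm]
    have e1 : (1 + S) * (1 + S) = (2 : ℂ) • (1 + S) := by
      rw [two_smul, add_mul, mul_add S, h2, one_mul, mul_one]
      abel
    rw [e1, smul_smul]
    norm_num
  have hQQ : Q * Q = Q := by
    rw [hQ, smul_mul_smul_comm]
    have e1 : (1 - S) * (1 - S) = (2 : ℂ) • (1 - S) := by
      rw [two_smul, sub_mul, mul_sub S, h2, one_mul, mul_one]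
      abel
    rw [e1, smul_smul]
    norm_num
  have hPQ : P * Q = 0 := by
    rw [hP, hQ, smul_mul_smul_comm]
    have e1 : (1 + S) * (1 - S) = 0 := by
      rw [add_mul, mul_sub S, h2, one_mul, mul_one]
      abel
    rw [e1, smul_zero]
  have hQP : Q * P = 0 := by
    rw [hP, hQ, smul_mul_smul_comm]
    have e1 : (1 - S) * (1 + S) = 0 := by
      rw [sub_mul, mul_add S, h2, one_mul, mul_one]
      abel
    rw [e1, smul_zero]
  have hsum : P + Q = 1 := by
    rw [hP, hQ, ← smul_add]
    have e1 : (1 + S) + (1 - S) = (2 : ℂ) • (1 : Matrix n n ℂ) := by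
      rw [two_smul]
      abel
    rw [e1, smul_smul]
    norm_num
  have hdiff : P - Q = S := by
    rw [hP, hQ, ← smul_sub]
    have e1 : (1 + S) - (1 - S) = (2 : ℂ) • S := by
      rw [two_smul]
      abel
    rw [e1, smul_smul]
    norm_num
  have e1 : P.conjTranspose = P := by
    rw [hP, Matrix.conjTranspose_smul, Matrix.conjTranspose_add, h1, Matrix.conjTranspose_one]
    norm_num
  have e2 : Q.conjTranspose = Q := by
    rw [hQ, Matrix.conjTranspose_smul, Matrix.conjTranspose_sub, h1, Matrix.conjTranspose_one]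
    norm_num
  clear_value P Q
  have key : ∀ e f : ℂ, e * f = 1 → (P + e • Q) * (P + f • Q) = 1 := by
    intro e f hef
    rw [add_mul, mul_add, mul_add, mul_smul_comm, smul_mul_assoc, smul_mul_smul_comm, hPP, hPQ, hQP,
      hQQ, hef, smul_zero, smul_zero, one_smul, add_zero, zero_add, hsum]
  have hct : ∀ e : ℂ, (P + e • Q).conjTranspose = P + (starRingEnd ℂ e) • Q := by
    intro e
    rw [Matrix.conjTranspose_add, Matrix.conjTranspose_smul, e1, e2]
    rfl
  refine ⟨fun s => P + Complex.exp (((s : ℝ) : ℂ) * (Real.pi * I)) • Q, ?_, ?_, ?_, ?_⟩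
  · have h5 : Continuous fun s : unitInterval => Complex.exp (((s : ℝ) : ℂ) * (Real.pi * I)) := by
      fun_prop
    exact continuous_const.add (h5.smul continuous_const)
  · show P + Complex.exp (((0 : ℝ) : ℂ) * (Real.pi * I)) • Q = 1
    simp [hsum]
  · show P + Complex.exp (((1 : ℝ) : ℂ) * (Real.pi * I)) • Q = S
    rw [Complex.ofReal_one, one_mul, Complex.exp_pi_mul_I, neg_one_smul, ← sub_eq_add_neg, hdiff]
  · intro s
    have e1 : Complex.exp (((s : ℝ) : ℂ) * (Real.pi * I)) *
        starRingEnd ℂ (Complex.exp (((s : ℝ) : ℂ) * (Real.pi * I))) = 1 := by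
      rw [← Complex.exp_conj, ← Complex.exp_add]
      simp
    show (P + Complex.exp (((s : ℝ) : ℂ) * (Real.pi * I)) • Q) *
      (P + Complex.exp (((s : ℝ) : ℂ) * (Real.pi * I)) • Q).conjTranspose = 1 ∧
      (P + Complex.exp (((s : ℝ) : ℂ) * (Real.pi * I)) • Q).conjTranspose *
      (P + Complex.exp (((s : ℝ) : ℂ) * (Real.pi * I)) • Q) = 1
    rw [hct]
    exact ⟨key _ _ e1, key _ _ (by rw [mul_comm]; exact e1)⟩

theorem EX1 : EX1_stmt := by
  intro n _ _ σ
  induction σ using Equiv.Perm.swap_induction_on with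
  | one => exact ⟨fun _ => 1, continuous_const, rfl, EX1_permM_one.symm, fun s => by simp⟩
  | swap_mul f x y hxy ih =>
    obtain ⟨V, hV1, hV2, hV3, hV4⟩ := ih
    have hS1 : (permM (Equiv.swap x y)).conjTranspose = permM (Equiv.swap x y) := by
      ext a b
      simp only [Matrix.conjTranspose_apply, permM, Matrix.of_apply]
      have : b = Equiv.swap x y a ↔ a = Equiv.swap x y b := by
        constructor
        · rintro rfl; rw [Equiv.swap_apply_self]
        · rintro rfl; rw [Equiv.swap_apply_self]
      by_cases h : a = Equiv.swap x y b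
      · rw [if_pos (this.2 h), if_pos h, star_one]
      · rw [if_neg (fun h' => h (this.1 h')), if_neg h, star_zero]
    have hS2 : permM (Equiv.swap x y) * permM (Equiv.swap x y) = 1 := by
      rw [← EX1_permM_mul, Equiv.swap_mul_self, EX1_permM_one]
    obtain ⟨W, hW1, hW2, hW3, hW4⟩ := EX1_path _ hS1 hS2
    refine ⟨fun s => W s * V s, hW1.mul hV1, ?_, ?_, fun s => ?_⟩
    · show W 0 * V 0 = 1
      rw [hW2, hV2, one_mul]
    · show W 1 * V 1 = _
      rw [hW3, hV3, EX1_permM_mul]
    · show W s * V s * (W s * V s).conjTranspose = 1 ∧ (W s * V s).conjTranspose * (W s * V s) = 1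
      rw [Matrix.conjTranspose_mul]
      constructor
      · calc W s * V s * ((V s).conjTranspose * (W s).conjTranspose)
            = W s * (V s * (V s).conjTranspose) * (W s).conjTranspose := by
              simp only [Matrix.mul_assoc]
          _ = 1 := by rw [(hV4 s).1, mul_one, (hW4 s).1]
      · calc (V s).conjTranspose * (W s).conjTranspose * (W s * V s)
            = (V s).conjTranspose * ((W s).conjTranspose * W s) * V s := by
              simp only [Matrix.mul_assoc]
          _ = 1 := by rw [(hW4 s).2, mul_one, (hV4 s).2]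

end Pool.Agent.helper44.KR
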